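import Pool.Agent.H13.L.Rf72.W626.FreeSep

/-!
Semidirect products of locally finite groups with free groups are locally embeddable into finite
groups.
-/

namespace Pool.Agent.W626

/-- Every finite subset of `G` and every nontrivial element can be handled by an (exactly)
multiplicative map into a finite symmetric group. -/
def SepLEF (G : Type*) [Group G] : Prop :=
  ∀ A : Finset G, ∀ g : G, g ≠ 1 → ∃ (n : ℕ) (φ : G → Equiv.Perm (Fin n)),
    (∀ a ∈ A, ∀ b ∈ A, φ (a * b) = φ a * φ b) ∧ φ g ≠ 1

/-- Every finitely generated subgroup of `G` is finite. -/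
def IsLocallyFiniteGroup (G : Type*) [Group G] : Prop :=
  ∀ S : Finset G, Finite (Subgroup.closure (S : Set G))

theorem sep_of_finite {G : Type*} [Group G] (A : Finset G) (g : G) {V : Type*} [Finite V]
    (φ : G → Equiv.Perm V) (h1 : ∀ a ∈ A, ∀ b ∈ A, φ (a * b) = φ a * φ b) (h2 : φ g ≠ 1) :
    ∃ (n : ℕ) (φ : G → Equiv.Perm (Fin n)),
      (∀ a ∈ A, ∀ b ∈ A, φ (a * b) = φ a * φ b) ∧ φ g ≠ 1 := by
  obtain ⟨n, ⟨e⟩⟩ := Finite.exists_equiv_fin V
  refine ⟨n, fun x => e.permCongrHom (φ x), fun a ha b hb => ?_, fun h => h2 ?_⟩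
  · change e.permCongrHom (φ (a * b)) = e.permCongrHom (φ a) * e.permCongrHom (φ b)
    rw [h1 a ha b hb, map_mul]
  · exact e.permCongrHom.injective (by rw [map_one]; exact h)

section semi

variable {L : Type*} [Group L] {X : Type*} (α : FreeGroup X →* MulAut L)

theorem sepLEF_semidirect (hL : IsLocallyFiniteGroup L) : SepLEF (L ⋊[α] FreeGroup X) := by
  classical
  intro A g hg
  by_cases hgr : g.right = 1
  swap
  · obtain ⟨n, φ, hφ⟩ := free_sep g.right hgr
    exact ⟨n, fun m => φ m.right, fun a _ b _ => by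
      change φ (a * b).right = φ a.right * φ b.right
      rw [SemidirectProduct.mul_right, map_mul], hφ⟩
  have hgl : g.left ≠ 1 := by
    intro h
    exact hg (SemidirectProduct.ext h hgr)
  -- finite sets
  set AL : Finset L := insert g.left (A.image fun m => m.left) with hAL
  set AF : Finset (FreeGroup X) := A.image fun m => m.right with hAF
  set W : Finset (FreeGroup X) := insert 1 (AF.biUnion fun q => suf q.toWord) with hW
  set S0 : Finset L := (W ×ˢ AL).image (fun p => α p.1 p.2) with hS0
  set L0 : Subgroup L := Subgroup.closure (S0 : Set L) with hL0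
  have fL0 : Finite L0 := hL S0
  have fL0' : (L0 : Set L).Finite := Set.toFinite _
  set L0f : Finset L := fL0'.toFinset with hL0f
  set X0 : Finset X := AF.biUnion (fun q => (q.toWord.map Prod.fst).toFinset) with hX0
  set S1 : Finset L := L0f ∪ X0.biUnion (fun x => L0f.image (α (FreeGroup.of x))) with hS1
  set L1 : Subgroup L := Subgroup.closure (S1 : Set L) with hL1
  have fL1 : Finite L1 := hL S1
  have h01 : L0 ≤ L1 := by
    intro u hu
    apply Subgroup.subset_closure
    simp only [hS1, Finset.coe_union, Set.mem_union, Finset.mem_coe]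
    left
    simpa [hL0f] using hu
  have h0x : ∀ x ∈ X0, ∀ u ∈ L0, α (FreeGroup.of x) u ∈ L1 := by
    intro x hx u hu
    apply Subgroup.subset_closure
    simp only [hS1, Finset.coe_union, Set.mem_union, Finset.mem_coe]
    right
    simp only [Finset.mem_biUnion, Finset.mem_image]
    exact ⟨x, hx, u, by simpa [hL0f] using hu, rfl⟩
  have hmem0 : ∀ w ∈ W, ∀ l ∈ AL, α w l ∈ L0 := by
    intro w hw l hl
    apply Subgroup.subset_closure
    simp only [hS0, Finset.coe_image, Set.mem_image, Finset.mem_coe, Finset.mem_product]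
    exact ⟨(w, l), ⟨hw, hl⟩, rfl⟩
  -- the permutations attached to the letters
  have hτ : ∀ x : X, ∃ τ : Equiv.Perm L1, x ∈ X0 → ∀ (u : L) (hu : u ∈ L0) (hu1 : u ∈ L1)
      (hux : α (FreeGroup.of x) u ∈ L1) (v : L1),
      τ (⟨u, hu1⟩ * v) = ⟨α (FreeGroup.of x) u, hux⟩ * τ v := by
    intro x
    by_cases hx : x ∈ X0
    · let β : (L0.subgroupOf L1) →* L1 :=
        { toFun := fun h => ⟨α (FreeGroup.of x) (h : L1), h0x x hx _ h.2⟩
          map_one' := by
            apply Subtype.ext
            simp
          map_mul' := fun a b => by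
            apply Subtype.ext
            simp }
      have hβ : Function.Injective β := by
        intro a b hab
        have : α (FreeGroup.of x) (a : L1) = α (FreeGroup.of x) (b : L1) :=
          congrArg Subtype.val hab
        have := (α (FreeGroup.of x)).injective this
        exact Subtype.ext (Subtype.ext this)
      obtain ⟨τ, hτ⟩ := exists_intertwiner (L0.subgroupOf L1) β hβ
      refine ⟨τ, fun _ u hu hu1 hux v => ?_⟩
      exact hτ ⟨⟨u, hu1⟩, hu⟩ v
    · exact ⟨1, fun h => absurd h hx⟩
  choose τ hτ using hτ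
  let T : FreeGroup X →* Equiv.Perm L1 := FreeGroup.lift τ
  let lam : L → Equiv.Perm L1 := fun u => if h : u ∈ L1 then Equiv.mulLeft (⟨u, h⟩ : L1) else 1
  have lam_eq : ∀ u (h : u ∈ L1), lam u = Equiv.mulLeft (⟨u, h⟩ : L1) := fun u h => dif_pos h
  have lam_mul : ∀ u ∈ L1, ∀ v ∈ L1, lam (u * v) = lam u * lam v := by
    intro u hu v hv
    rw [lam_eq u hu, lam_eq v hv, lam_eq _ (L1.mul_mem hu hv)]
    ext w
    simp [mul_assoc]
  have hstep : ∀ x ∈ X0, ∀ u ∈ L0, τ x * lam u = lam (α (FreeGroup.of x) u) * τ x := by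
    intro x hx u hu
    rw [lam_eq u (h01 hu), lam_eq _ (h0x x hx u hu)]
    refine Equiv.ext fun v => ?_
    exact hτ x hx u hu (h01 hu) (h0x x hx u hu) v
  -- the intertwining relation along words
  have hword : ∀ q ∈ AF, ∀ l ∈ AL, ∀ w : List (X × Bool), w <:+ q.toWord →
      T (FreeGroup.mk w) * lam l = lam (α (FreeGroup.mk w) l) * T (FreeGroup.mk w) := by
    intro q hq l hl w
    induction w with
    | nil =>
      intro _
      rw [← FreeGroup.one_eq_mk, map_one, map_one]
      simp
    | cons a w ih =>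
      intro h
      have h' : w <:+ q.toWord := (List.suffix_cons a w).trans h
      have ih' := ih h'
      obtain ⟨x, b⟩ := a
      have hxX : x ∈ X0 := by
        simp only [hX0, Finset.mem_biUnion, List.mem_toFinset, List.mem_map]
        exact ⟨q, hq, (x, b), h.subset (by simp), rfl⟩
      have hw1 : FreeGroup.mk w ∈ W := by
        simp only [hW, Finset.mem_insert, Finset.mem_biUnion]
        exact Or.inr ⟨q, hq, mem_suf _ _ h'⟩
      have hw2 : FreeGroup.mk ((x, b) :: w) ∈ W := by
        simp only [hW, Finset.mem_insert, Finset.mem_biUnion]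
        exact Or.inr ⟨q, hq, mem_suf _ _ h⟩
      have hmk : FreeGroup.mk ((x, b) :: w) = FreeGroup.mk [(x, b)] * FreeGroup.mk w := by
        rw [FreeGroup.mul_mk]; rfl
      have hu1 := hmem0 _ hw1 l hl
      have hu2 := hmem0 _ hw2 l hl
      rw [hmk] at hu2 ⊢
      rw [map_mul T, mul_assoc, ih', ← mul_assoc, ← mul_assoc]
      congr 1
      cases b with
      | true =>
        have h1 : FreeGroup.mk [(x, true)] = FreeGroup.of x := rfl
        rw [h1]
        have h2 : T (FreeGroup.of x) = τ x := FreeGroup.lift_apply_of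
        rw [h2, hstep x hxX _ hu1, map_mul α, MulAut.mul_apply]
      | false =>
        have h1 : FreeGroup.mk [(x, false)] = (FreeGroup.of x)⁻¹ := rfl
        rw [h1] at hu2 ⊢
        have h2 : T (FreeGroup.of x) = τ x := FreeGroup.lift_apply_of
        have h3 := hstep x hxX _ hu2
        rw [← MulAut.mul_apply, ← map_mul α, mul_inv_cancel_left] at h3
        rw [map_inv T, h2, inv_mul_eq_iff_eq_mul, ← mul_assoc, h3, mul_assoc, mul_inv_cancel,
          mul_one]
  have hAF' : ∀ a ∈ A, a.right ∈ AF := fun a ha => Finset.mem_image_of_mem _ ha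
  have hAL' : ∀ a ∈ A, a.left ∈ AL := fun a ha =>
    Finset.mem_insert_of_mem (Finset.mem_image_of_mem _ ha)
  have h1W : (1 : FreeGroup X) ∈ W := Finset.mem_insert_self _ _
  have hAL1 : ∀ l ∈ AL, l ∈ L1 := by
    intro l hl
    have := hmem0 1 h1W l hl
    rw [map_one] at this
    exact h01 this
  refine sep_of_finite A g (fun m => lam m.left * T m.right) (fun a ha b hb => ?_) ?_
  · have hq : a.right ∈ W := by
      simp only [hW, Finset.mem_insert, Finset.mem_biUnion]
      refine Or.inr ⟨a.right, hAF' a ha, ?_⟩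
      have := mem_suf a.right.toWord a.right.toWord List.suffix_rfl
      rwa [FreeGroup.mk_toWord] at this
    have hbl : α a.right b.left ∈ L1 := h01 (hmem0 _ hq _ (hAL' b hb))
    have h4 := hword a.right (hAF' a ha) b.left (hAL' b hb) a.right.toWord List.suffix_rfl
    rw [FreeGroup.mk_toWord] at h4
    simp only [SemidirectProduct.mul_left, SemidirectProduct.mul_right]
    rw [lam_mul _ (hAL1 _ (hAL' a ha)) _ hbl, map_mul T, mul_assoc, ← mul_assoc (lam (α a.right b.left)),
      ← h4, mul_assoc, mul_assoc]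
  · intro h
    have hgm : g.left ∈ L1 := hAL1 _ (Finset.mem_insert_self _ _)
    simp only [hgr, map_one, mul_one] at h
    rw [lam_eq _ hgm] at h
    have h5 := congrArg (fun e : Equiv.Perm L1 => ((e 1 : L1) : L)) h
    simp at h5
    exact hgl h5

end semi

end Pool.Agent.W626
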