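import Pool.Agent.H13.L.Rf72.W626.LocFin
import Pool.Agent.H13.L.S8.H21R2.Labelled

/-!
The Kaloujnine-Krasner embedding, extensions with amenable quotient, and soficity of
(residually finite)-by-free groups.
-/

namespace Pool.Agent.W626

open Pool.Agent.H21R2

section shift

/-- The shift action of `Q` on the group of all functions `Q → K`. -/
def shiftQ (Q K : Type*) [Group Q] [Group K] : Q →* MulAut (Q → K) where
  toFun q :=
    { toFun := fun f x => f (q⁻¹ * x)
      invFun := fun f x => f (q * x)
      left_inv := fun f => by funext x; simp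
      right_inv := fun f => by funext x; simp
      map_mul' := fun _ _ => rfl }
  map_one' := by
    ext f x
    simp
  map_mul' q r := by
    ext f x
    simp [MulAut.mul_apply, mul_assoc]

theorem shiftQ_apply {Q K : Type*} [Group Q] [Group K] (q : Q) (f : Q → K) (x : Q) :
    shiftQ Q K q f x = f (q⁻¹ * x) := rfl

variable {G Q K : Type*} [Group G] [Group Q] [Group K]

theorem kk_mem (p : G →* Q) (σ : Q → G) (hσ : ∀ q, p (σ q) = q) (g : G) (x : Q) :
    (σ x)⁻¹ * g * σ ((p g)⁻¹ * x) ∈ p.ker := by
  rw [MonoidHom.mem_ker, map_mul, map_mul, map_inv, hσ, hσ]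
  group

/-- The Kaloujnine-Krasner homomorphism. -/
def kk (p : G →* Q) (σ : Q → G) (hσ : ∀ q, p (σ q) = q) (π : p.ker →* K) :
    G →* (Q → K) ⋊[shiftQ Q K] Q where
  toFun g := ⟨fun x => π ⟨(σ x)⁻¹ * g * σ ((p g)⁻¹ * x), kk_mem p σ hσ g x⟩, p g⟩
  map_one' := by
    apply SemidirectProduct.ext
    · funext x
      simp only [SemidirectProduct.one_left, Pi.one_apply]
      rw [← map_one π]
      congr 1
      apply Subtype.ext
      simp
    · simp
  map_mul' g h := by
    apply SemidirectProduct.ext
    · funext x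
      simp only [SemidirectProduct.mul_left, Pi.mul_apply, shiftQ_apply]
      rw [← map_mul π]
      congr 1
      apply Subtype.ext
      simp only [Subgroup.coe_mul, map_mul, mul_inv_rev]
      group
    · simp

theorem kk_ne_one (p : G →* Q) (σ : Q → G) (hσ : ∀ q, p (σ q) = q) (π : p.ker →* K) (g : G)
    (hg : p g = 1) (hgm : (σ 1)⁻¹ * g * σ 1 ∈ p.ker) (h : π ⟨(σ 1)⁻¹ * g * σ 1, hgm⟩ ≠ 1) :
    kk p σ hσ π g ≠ 1 := by
  intro h1
  apply h
  have h2 := congrArg (fun z : (Q → K) ⋊[shiftQ Q K] Q => z.left 1) h1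
  simp only [SemidirectProduct.one_left, Pi.one_apply] at h2
  rw [← h2]
  change π _ = π _
  congr 1
  apply Subtype.ext
  simp [hg]

theorem locallyFinite_fun (I : Type*) [Finite K] : IsLocallyFiniteGroup (I → K) := by
  intro S
  let Ψ : ((S → K) → K) →* (I → K) :=
    { toFun := fun h x => h (fun s => s.1 x)
      map_one' := rfl
      map_mul' := fun _ _ => rfl }
  have hle : Subgroup.closure (S : Set (I → K)) ≤ Ψ.range := by
    rw [Subgroup.closure_le]
    intro s hs
    exact ⟨fun k => k ⟨s, hs⟩, rfl⟩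
  have hfin : Finite Ψ.range := Finite.of_surjective _ Ψ.rangeRestrict_surjective
  exact Finite.of_injective (Subgroup.inclusion hle) (Subgroup.inclusion_injective hle)

end shift

section lef

theorem sepLEF_of_residual {G : Type*} [Group G] (A : Finset G) (g : G) {P : Type*} [Group P]
    (hP : SepLEF P) (Φ : G →* P) (hg : Φ g ≠ 1) :
    ∃ (n : ℕ) (φ : G → Equiv.Perm (Fin n)),
      (∀ a ∈ A, ∀ b ∈ A, φ (a * b) = φ a * φ b) ∧ φ g ≠ 1 := by
  classical
  obtain ⟨n, φ, h1, h2⟩ := hP (A.image Φ) (Φ g) hg
  refine ⟨n, fun x => φ (Φ x), fun a ha b hb => ?_, h2⟩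
  change φ (Φ (a * b)) = φ (Φ a) * φ (Φ b)
  rw [map_mul]
  exact h1 _ (Finset.mem_image_of_mem _ ha) _ (Finset.mem_image_of_mem _ hb)

theorem sepLEF_free (X : Type*) : SepLEF (FreeGroup X) := by
  intro A g hg
  obtain ⟨n, φ, hφ⟩ := free_sep g hg
  exact ⟨n, φ, fun a _ b _ => map_mul φ a b, hφ⟩

/-- (residually finite)-by-free groups are locally embeddable into finite groups. -/
theorem sepLEF_rf_by_free {G X : Type*} [Group G] (p : G →* FreeGroup X)
    (hp : Function.Surjective p) (hN : Group.ResiduallyFinite p.ker) : SepLEF G := by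
  intro A g hg
  by_cases h : p g = 1
  swap
  · exact sepLEF_of_residual A g (sepLEF_free X) p h
  choose σ hσ using hp
  have hgm : (σ 1)⁻¹ * g * σ 1 ∈ p.ker := by
    rw [MonoidHom.mem_ker, map_mul, map_mul, h, mul_one, map_inv, inv_mul_cancel]
  have hne : (⟨(σ 1)⁻¹ * g * σ 1, hgm⟩ : p.ker) ≠ 1 := by
    intro h1
    apply hg
    have h2 : (σ 1)⁻¹ * g * σ 1 = 1 := congrArg Subtype.val h1
    have h3 : g = σ 1 * ((σ 1)⁻¹ * g * σ 1) * (σ 1)⁻¹ := by group
    rw [h3, h2]
    group
  obtain ⟨H, hH⟩ := Group.exists_finiteIndexNormalSubgroup_notMem _ hne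
  have hfin : Finite (p.ker ⧸ H.toSubgroup) := inferInstance
  let π : p.ker →* (p.ker ⧸ H.toSubgroup) := QuotientGroup.mk' H.toSubgroup
  have hπ : π ⟨(σ 1)⁻¹ * g * σ 1, hgm⟩ ≠ 1 := by
    intro h1
    exact hH ((QuotientGroup.eq_one_iff _).mp h1)
  exact sepLEF_of_residual A g
    (sepLEF_semidirect (shiftQ (FreeGroup X) (p.ker ⧸ H.toSubgroup))
      (locallyFinite_fun (FreeGroup X))) (kk p σ hσ π) (kk_ne_one p σ hσ π g h hgm hπ)

theorem isSofic_of_sepLEF {G : Type*} [Group G] (h : SepLEF G) : IsSofic G := by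
  classical
  refine isSofic_of_weighted.{0, _} G ?_
  intro A h1A g hg hg1 ε hε
  obtain ⟨n, φ, h1, h2⟩ := h A g hg1
  let f : Fin n →₀ ℝ := Finsupp.equivFunOnFinite.symm (fun _ => 1)
  have hf : ∀ y, f y = 1 := fun y => rfl
  have hsupp : f.support = Finset.univ := by
    ext y; simp [hf]
  have hpos : 0 < mass f (fun y => φ g y ≠ y) := by
    obtain ⟨y, hy⟩ : ∃ y, φ g y ≠ y := by
      by_contra hcon
      push Not at hcon
      exact h2 (Equiv.ext hcon)
    rw [mass]
    apply Finset.sum_pos
    · intro i _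
      rw [hf]; norm_num
    · exact ⟨y, by simp [hsupp, hy]⟩
  refine ⟨Fin n, φ, f, ?_, hpos, ?_, ?_⟩
  · have h3 := h1 1 h1A 1 h1A
    rw [mul_one] at h3
    exact (left_eq_mul.mp h3)
  · intro a _
    have : energy f (φ a) = 0 := by
      simp [energy, hf]
    rw [this]
    positivity
  · intro a ha b hb _
    have : mass f (fun y => φ (a * b) y ≠ φ a (φ b y)) = 0 := by
      rw [mass]
      apply Finset.sum_eq_zero
      intro y hy
      exfalso
      simp only [Finset.mem_filter] at hy
      apply hy.2
      rw [h1 a ha b hb]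
      rfl
    rw [this]
    positivity

end lef

section amen

/-- The Følner condition (amenability of a discrete group). -/
def Folner (Q : Type*) [Group Q] : Prop :=
  ∀ S : Set Q, S.Finite → ∀ ε : ℝ, 0 < ε → ∃ E : Set Q, E.Finite ∧ E.Nonempty ∧
    ∀ s ∈ S, (((fun x => s * x) '' E \ E).ncard : ℝ) ≤ ε * E.ncard

/-- Extensions of sofic groups by amenable groups are sofic. -/
theorem isSofic_of_amenable_quotient {G R : Type*} [Group G] [Group R] (p : G →* R)
    (hp : Function.Surjective p) (hR : Folner R) (hK : IsSofic p.ker) : IsSofic G := by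
  classical
  choose σ hσ using hp
  let _ : MulAction G R := MulAction.compHom R p
  have hsm : ∀ (g : G) (y : R), g • y = p g * y := fun g y => rfl
  have hmem : ∀ (g : G) (y : R), (σ (g • y))⁻¹ * g * σ y ∈ p.ker := by
    intro g y
    rw [MonoidHom.mem_ker, map_mul, map_mul, map_inv, hσ, hσ, hsm]
    group
  let c : G → R → p.ker := fun g y => ⟨(σ (g • y))⁻¹ * g * σ y, hmem g y⟩
  refine isSofic_of_labelled (Y := R) hK c ?_ ?_
  · intro a b y
    apply Subtype.ext
    simp only [c, Subgroup.coe_mul, mul_smul]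
    group
  · intro A g hg ε hε
    obtain ⟨E, hEf, hEn, hE⟩ := hR ((fun a => (p a)⁻¹) '' (A : Set G)) ((Finset.finite_toSet A).image _)
      (ε / 2) (by positivity)
    set E' : Finset R := hEf.toFinset with hE'
    have hcard : E.ncard = E'.card := Set.ncard_eq_toFinset_card E hEf
    have hE'm : ∀ y, y ∈ E' ↔ y ∈ E := fun y => by simp [hE']
    let f : R →₀ ℝ := Finsupp.indicator E' (fun _ _ => 1)
    have hf1 : ∀ y ∈ E', f y = 1 := fun y hy => Finsupp.indicator_of_mem hy _
    have hf0 : ∀ y, y ∉ E' → f y = 0 := fun y hy => Finsupp.indicator_of_notMem hy _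
    have hall : ∀ y, g • y ≠ y ∨ c g y ≠ 1 := by
      intro y
      by_contra hcon
      push Not at hcon
      obtain ⟨h1, h2⟩ := hcon
      apply hg
      have h3 : (σ (g • y))⁻¹ * g * σ y = 1 := congrArg Subtype.val h2
      rw [h1] at h3
      have h4 : g = σ y * ((σ y)⁻¹ * g * σ y) * (σ y)⁻¹ := by group
      rw [h4, h3]
      group
    have hsupp : f.support = E' := by
      ext y
      rw [Finsupp.mem_support_iff]
      constructor
      · intro h
        by_contra h'
        exact h (hf0 y h')
      · intro h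
        rw [hf1 y h]
        norm_num
    have hmass : mass f (fun y => g • y ≠ y ∨ c g y ≠ 1) = E'.card := by
      rw [mass, hsupp, Finset.sum_congr (s₂ := E') (g := fun _ => (1 : ℝ))
        (by ext y; simp [hall y]) (fun y hy => by rw [hf1 y hy]; norm_num)]
      simp
    refine ⟨f, ?_, ?_⟩
    · rw [hmass]
      have : 0 < E'.card := by
        rw [← hcard]
        exact (Set.ncard_pos hEf).mpr hEn
      exact_mod_cast this
    · intro a ha
      rw [hmass]
      set D : Finset R := E' ∪ E'.image (fun y => a⁻¹ • y) with hD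
      have hD1 : ∀ y, y ∉ D → f y = 0 ∧ f (MulAction.toPerm a y) = 0 := by
        intro y hy
        simp only [hD, Finset.mem_union, Finset.mem_image, not_or, not_exists, not_and] at hy
        refine ⟨hf0 y hy.1, hf0 _ fun h => hy.2 (a • y) h (by simp)⟩
      rw [energy_eq_sum f _ D hD1]
      have hEa := hE ((p a)⁻¹) ⟨a, ha, rfl⟩
      -- the set a⁻¹E \ E and E \ a⁻¹ E have the same cardinality
      set B1 : Finset R := (E'.image (fun y => a⁻¹ • y)) \ E' with hB1
      set B2 : Finset R := E' \ (E'.image (fun y => a⁻¹ • y)) with hB2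
      have himg : (E'.image (fun y => a⁻¹ • y)).card = E'.card :=
        Finset.card_image_of_injective _ (MulAction.injective _)
      have hB12 : B2.card = B1.card := by
        have e1 := Finset.card_sdiff_add_card_inter (E'.image (fun y => a⁻¹ • y)) E'
        have e2 := Finset.card_sdiff_add_card_inter E' (E'.image (fun y => a⁻¹ • y))
        rw [Finset.inter_comm] at e2
        rw [hB1, hB2]
        omega
      have hB1c : (B1.card : ℝ) ≤ ε / 2 * E'.card := by
        rw [← hcard]
        refine le_trans (le_of_eq ?_) hEa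
        congr 1
        rw [← Set.ncard_coe_finset]
        congr 1
        ext y
        simp only [hB1, Finset.coe_sdiff, Finset.coe_image, hE', Set.Finite.coe_toFinset, hsm,
          map_inv]
      have hsum : ∑ y ∈ D, (f (MulAction.toPerm a y) - f y) ^ 2 ≤ ∑ y ∈ B1 ∪ B2, (1 : ℝ) := by
        have hsub : ∀ y ∈ D, y ∉ B1 ∪ B2 → (f (MulAction.toPerm a y) - f y) ^ 2 = 0 := by
          intro y _ hy
          simp only [hB1, hB2, Finset.mem_union, Finset.mem_sdiff, not_or,
            not_and, not_not] at hy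
          change (f (a • y) - f y) ^ 2 = 0
          by_cases h1 : y ∈ E'
          · obtain ⟨z, hz, hzy⟩ := Finset.mem_image.mp (hy.2 h1)
            have h2 : a • y = z := by rw [← hzy]; simp
            rw [h2, hf1 z hz, hf1 y h1]; simp
          · have h2 : a • y ∉ E' := by
              intro h2
              exact h1 (hy.1 (Finset.mem_image.mpr ⟨a • y, h2, by simp⟩))
            rw [hf0 _ h1, hf0 _ h2]; simp
        have hD2 : B1 ∪ B2 ⊆ D := by
          intro y hy
          simp only [hB1, hB2, Finset.mem_union, Finset.mem_sdiff] at hy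
          simp only [hD, Finset.mem_union]
          tauto
        rw [← Finset.sum_subset hD2 (fun y hy hy' => hsub y hy hy')]
        refine Finset.sum_le_sum fun y _ => ?_
        have h01 : ∀ z, f z = 0 ∨ f z = 1 := by
          intro z
          by_cases hz : z ∈ E'
          · exact Or.inr (hf1 z hz)
          · exact Or.inl (hf0 z hz)
        rcases h01 (MulAction.toPerm a y) with h1 | h1 <;> rcases h01 y with h2 | h2 <;>
          rw [h1, h2] <;> norm_num
      refine hsum.trans ?_
      rw [Finset.sum_const, nsmul_eq_mul, mul_one]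
      have hU : ((B1 ∪ B2).card : ℝ) ≤ B1.card + B2.card := by
        exact_mod_cast Finset.card_union_le _ _
      rw [hB12] at hU
      linarith

end amen

end Pool.Agent.W626
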